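import Mathlib

namespace Pool.Agent.Results.MP_c57c58_al.No

open scoped Pointwise

/-- sparse multiplication table of a nilpotent algebra over the field with two elements -/
def T : List (List (ℕ × List ℕ)) :=
  [[(3, [6]), (8, [10]), (17, [2]), (18, [3, 19]), (19, [6]), (20, [6]), (21, [23]), (22, [9, 26]), (25, [11]), (27, [12]), (29, [14]), (31, [15]), (33, [34])],
   [(3, [11]), (17, [5]), (18, [7, 24]), (19, [11]), (20, [11]), (22, [13]), (27, [14])],
   [(3, [12]), (19, [12])],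
   [(0, [6]), (1, [11]), (2, [12]), (5, [14]), (16, [24]), (17, [9, 26, 27])],
   [(18, [28]), (21, [32]), (25, [15]), (29, [34])],
   [(3, [14]), (19, [14])],
   [(17, [12])],
   [(17, [13])],
   [(0, [10]), (17, [30]), (18, [31, 32]), (19, [15]), (20, [15]), (22, [33]), (26, [34]), (27, [34])],
   [],
   [(18, [15]), (22, [34])],
   [(17, [14])],
   [],
   [],
   [],
   [(17, [34])],
   [(0, [1]), (2, [5]), (3, [7, 24]), (6, [11]), (9, [13]), (12, [14])],
   [(3, [27]), (19, [27])],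
   [(0, [4, 20]), (1, [8, 25]), (2, [27]), (3, [28]), (5, [29]), (7, [31]), (11, [15]), (13, [33]), (14, [34]), (16, [21]), (17, [22]), (23, [32]), (24, [32])],
   [(1, [10]), (7, [15]), (13, [34]), (16, [23, 24]), (17, [27])],
   [(17, [27])],
   [(0, [8, 25]), (2, [29]), (3, [31, 32]), (6, [15]), (9, [33]), (12, [34])],
   [],
   [(0, [10, 11]), (2, [14]), (3, [15]), (9, [34])],
   [(0, [11]), (2, [14])],
   [(0, [10]), (3, [15]), (17, [29, 30]), (26, [34])],
   [],
   [],
   [(1, [15]), (5, [34]), (16, [32])],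
   [(3, [34]), (19, [34])],
   [(3, [34]), (19, [34])],
   [(17, [33])],
   [(0, [15]), (2, [34])],
   [],
   []]

def tab (i j : ℕ) : List ℕ := if i < 35 ∧ j < 35 then ((T.getD i []).lookup j).getD [] else []

def deg (k : ℕ) : ℕ := [1, 2, 2, 2, 2, 3, 3, 3, 3, 3, 4, 4, 4, 4, 5, 5, 1, 1, 1, 2, 2, 2, 2, 3, 3, 3, 3, 3, 3, 4, 4, 4, 4, 5, 6].getD k 0

abbrev V := Fin 35 → ZMod 2

def vec (l : List ℕ) : V := fun k => (l.count k.val : ZMod 2)

noncomputable def mu : V →ₗ[ZMod 2] V →ₗ[ZMod 2] V :=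
  (Pi.basisFun (ZMod 2) (Fin 35)).constr (ZMod 2) fun i =>
    (Pi.basisFun (ZMod 2) (Fin 35)).constr (ZMod 2) fun j => vec (tab i j)

def ml (l l' : List ℕ) : List ℕ := l.flatMap fun i => l'.flatMap fun j => tab i j

def ev (l : List ℕ) : Bool := l.all fun k => l.count k % 2 == 0

theorem vv (v : V) : v + v = 0 := funext fun k => CharTwo.add_self_eq_zero (v k)

theorem vec_nil : vec [] = 0 := funext fun _ => by simp [vec]

theorem vec_append (l l' : List ℕ) : vec (l ++ l') = vec l + vec l' :=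
  funext fun _ => by simp [vec]

theorem vec_cons (k : ℕ) (l : List ℕ) : vec (k :: l) = vec [k] + vec l := vec_append [k] l

theorem vec_one (i : Fin 35) : vec [i.val] = Pi.basisFun (ZMod 2) (Fin 35) i := by
  funext k
  by_cases h : k = i
  · simp [vec, h]
  · have : i.val ≠ k.val := fun e => h (Fin.ext e.symm)
    simp [vec, h, List.count_cons, this]

theorem vec_big {i : ℕ} (h : ¬ i < 35) : vec [i] = 0 := by
  funext k
  have : i ≠ k.val := fun e => h (e ▸ k.2)
  simp [vec, List.count_cons, this]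

theorem mu_one (i j : ℕ) : mu (vec [i]) (vec [j]) = vec (tab i j) := by
  by_cases hi : i < 35
  · by_cases hj : j < 35
    · rw [vec_one ⟨i, hi⟩, vec_one ⟨j, hj⟩, mu, Module.Basis.constr_basis,
        Module.Basis.constr_basis]
    · rw [vec_big hj, map_zero, tab, if_neg (fun h => hj h.2), vec_nil]
  · rw [vec_big hi, map_zero, LinearMap.zero_apply, tab, if_neg (fun h => hi h.1), vec_nil]

theorem mu_vec (l l' : List ℕ) : mu (vec l) (vec l') = vec (ml l l') := by
  induction l with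
  | nil => simp [ml, vec_nil]
  | cons i l ih =>
    rw [vec_cons, map_add, LinearMap.add_apply, ih]
    simp only [ml, List.flatMap_cons, vec_append]
    congr 1
    clear ih
    induction l' with
    | nil => simp [vec_nil]
    | cons j l' ih => rw [vec_cons j, map_add, ih, mu_one, List.flatMap_cons, vec_append]

theorem vec_ev {l : List ℕ} (h : ev l = true) : vec l = 0 := by
  funext k
  by_cases hk : k.val ∈ l
  · have := List.all_eq_true.1 h _ hk
    exact (ZMod.natCast_eq_zero_iff _ _).2 (Nat.dvd_of_mod_eq_zero (by simpa using this))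
  · simp [vec, List.count_eq_zero_of_not_mem hk]

theorem vec_eq {l l' : List ℕ} (h : ev (l ++ l') = true) : vec l = vec l' := by
  have := vec_ev h
  rw [vec_append] at this
  rw [← add_zero (vec l), ← vv (vec l'), ← add_assoc, this, zero_add]

def Sup (p : ℕ → Prop) : Submodule (ZMod 2) V where
  carrier := {v | ∀ k : Fin 35, ¬ p k → v k = 0}
  zero_mem' _ _ := rfl
  add_mem' ha hb k hk := by simp [ha k hk, hb k hk]
  smul_mem' c _ ha k hk := by simp [ha k hk]

theorem vec_mem {p : ℕ → Prop} {l : List ℕ} (h : ∀ k ∈ l, p k) : vec l ∈ Sup p := fun k hk => by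
  simp [vec, List.count_eq_zero_of_not_mem (fun hl => hk (h _ hl))]

theorem ind {p : ℕ → Prop} {P : V → Prop} (h0 : P 0) (ha : ∀ x y, P x → P y → P (x + y))
    (hb : ∀ i < 35, p i → P (vec [i])) (v : V) (hv : v ∈ Sup p) : P v := by
  rw [← (Pi.basisFun (ZMod 2) (Fin 35)).sum_repr v]
  refine Finset.sum_induction _ P ha h0 fun k _ => ?_
  have : ∀ c : ZMod 2, c = 0 ∨ c = 1 := by decide
  rcases this (v k) with h | h
  · simpa [h] using h0
  · have hp : p k := by
      by_contra hn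
      rw [hv k hn] at h
      exact zero_ne_one h
    rw [Pi.basisFun_repr, h, one_smul, ← vec_one]
    exact hb _ k.2 hp

theorem mem_top (v : V) : v ∈ Sup fun _ => True := fun _ h => absurd trivial h

theorem mu_mem {p q r : ℕ → Prop} (h : ∀ i < 35, ∀ j < 35, p i → q j → ∀ k ∈ tab i j, r k)
    {x y : V} (hx : x ∈ Sup p) (hy : y ∈ Sup q) : mu x y ∈ Sup r := by
  refine ind (P := fun x => mu x y ∈ Sup r) (by simp) (fun a b ha hb => ?_)
    (fun i hi hp => ?_) x hx
  · simpa using add_mem ha hb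
  · refine ind (P := fun y => mu (vec [i]) y ∈ Sup r) (by simp) (fun a b ha hb => ?_)
      (fun j hj hq => ?_) y hy
    · simpa using add_mem ha hb
    · simp only [mu_one]
      exact vec_mem (h i hi j hj hp hq)

theorem c_assoc : ∀ i < 35, ∀ j < 35, ∀ k < 35,
    ev (ml (ml [i] [j]) [k] ++ ml [i] (ml [j] [k])) = true := by decide +kernel

theorem c_A : ∀ i < 35, ∀ j < 35, i < 16 → j < 16 → ∀ k ∈ tab i j, k < 16 := by decide +kernel

theorem c_B : ∀ i < 35, ∀ j < 35, 16 ≤ i → 16 ≤ j → ∀ k ∈ tab i j, 16 ≤ k := by decide +kernel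

theorem c_deg : ∀ i < 35, ∀ j < 35, ∀ k ∈ tab i j, deg i + deg j ≤ deg k := by decide +kernel

theorem c_d : ∀ i < 35, 1 ≤ deg i ∧ deg i < 7 := by decide +kernel

theorem c_comm : ∀ i < 35, ∀ j < 35, i < 16 → j < 16 →
    ev (ml [i] [j] ++ ml [j] [i]) = true := by decide +kernel

theorem c_BBB : ∀ i < 35, ∀ j < 35, ∀ k < 35,
    ev (if 16 ≤ i ∧ 16 ≤ j ∧ 16 ≤ k then ml (ml [i] [j]) [k] else []) = true := by decide +kernel

theorem tri {p : ℕ → Prop} (f : V → V → V → V) (a1 : ∀ a b y z, f (a + b) y z = f a y z + f b y z)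
    (a2 : ∀ a b y z, f y (a + b) z = f y a z + f y b z)
    (a3 : ∀ a b y z, f y z (a + b) = f y z a + f y z b)
    (h : ∀ i < 35, ∀ j < 35, ∀ k < 35, p i → p j → p k → f (vec [i]) (vec [j]) (vec [k]) = 0)
    {x y z : V} (hx : x ∈ Sup p) (hy : y ∈ Sup p) (hz : z ∈ Sup p) : f x y z = 0 := by
  refine ind (P := fun x => f x y z = 0) ?_ (fun a b ha hb => ?_) (fun i hi hp => ?_) x hx
  · simpa [vv] using a1 0 0 y z
  · simp only [a1, ha, hb, add_zero]
  refine ind (P := fun y => f _ y z = 0) ?_ (fun a b ha hb => ?_) (fun j hj hq => ?_) y hy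
  · simpa [vv] using a2 0 0 _ z
  · simp only [a2, ha, hb, add_zero]
  refine ind (P := fun z => f _ _ z = 0) ?_ (fun a b ha hb => ?_) (fun k hk hr => ?_) z hz
  · simpa [vv] using a3 0 0 _ _
  · simp only [a3, ha, hb, add_zero]
  exact h i hi j hj k hk hp hq hr

theorem of_add {x y : V} (h : x + y = 0) : x = y := by
  rw [← add_zero x, ← vv y, ← add_assoc, h, zero_add]

theorem mu_assoc (x y z : V) : mu (mu x y) z = mu x (mu y z) := by
  refine of_add (tri (p := fun _ => True) (fun x y z => mu (mu x y) z + mu x (mu y z))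
    ?_ ?_ ?_ ?_ (mem_top x) (mem_top y) (mem_top z))
  iterate 3
    intro a b y z
    simp only [map_add, LinearMap.add_apply]
    abel
  intro i hi j hj k hk _ _ _
  simp only [mu_vec, ← vec_append]
  exact vec_ev (c_assoc i hi j hj k hk)

theorem mu_BBB {x y z : V} (hx : x ∈ Sup (16 ≤ ·)) (hy : y ∈ Sup (16 ≤ ·))
    (hz : z ∈ Sup (16 ≤ ·)) : mu (mu x y) z = 0 := by
  refine tri (fun x y z => mu (mu x y) z) ?_ ?_ ?_ ?_ hx hy hz
  iterate 3
    intro a b y z
    simp only [map_add, LinearMap.add_apply]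
  intro i hi j hj k hk h1 h2 h3
  simp only [mu_vec]
  have := c_BBB i hi j hj k hk
  rw [if_pos ⟨h1, h2, h3⟩] at this
  exact vec_ev this

theorem mu_comm {x y : V} (hx : x ∈ Sup (· < 16)) (hy : y ∈ Sup (· < 16)) : mu x y = mu y x := by
  refine ind (P := fun x => mu x y = mu y x) (by simp) (fun a b ha hb => ?_)
    (fun i hi hp => ?_) x hx
  · simp only [map_add, LinearMap.add_apply, ha, hb]
  refine ind (P := fun y => mu (vec [i]) y = mu y (vec [i])) (by simp) (fun a b ha hb => ?_)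
    (fun j hj hq => ?_) y hy
  · simp only [map_add, LinearMap.add_apply, ha, hb]
  simp only [mu_vec]
  exact vec_eq (c_comm i hi j hj hp hq)

theorem mu_deg {d e : ℕ} {x y : V} (hx : x ∈ Sup (d ≤ deg ·)) (hy : y ∈ Sup (e ≤ deg ·)) :
    mu x y ∈ Sup (d + e ≤ deg ·) :=
  mu_mem (fun i hi j hj h1 h2 k hk => (add_le_add h1 h2).trans (c_deg i hi j hj k hk)) hx hy

theorem deg_one (x : V) : x ∈ Sup (1 ≤ deg ·) := fun k hk => absurd (c_d k k.2).1 hk

theorem deg_mono {d e : ℕ} (h : d ≤ e) {x : V} (hx : x ∈ Sup (e ≤ deg ·)) :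
    x ∈ Sup (d ≤ deg ·) := fun k hk => hx k fun h' => hk (h.trans h')

theorem deg_big {x : V} (hx : x ∈ Sup (7 ≤ deg ·)) : x = 0 :=
  funext fun k => hx k (not_le.2 (c_d k k.2).2)

/-- the adjoint group of the algebra -/
@[ext] structure G where
  v : V

noncomputable instance : Monoid G where
  mul x y := ⟨x.v + y.v + mu x.v y.v⟩
  one := ⟨0⟩
  mul_assoc x y z := by
    apply G.ext
    change (x.v + y.v + mu x.v y.v) + z.v + mu (x.v + y.v + mu x.v y.v) z.v =
      x.v + (y.v + z.v + mu y.v z.v) + mu x.v (y.v + z.v + mu y.v z.v)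
    simp only [map_add, LinearMap.add_apply, mu_assoc]
    abel
  one_mul x := G.ext (by change 0 + x.v + mu 0 x.v = x.v; simp)
  mul_one x := G.ext (by change x.v + 0 + mu x.v 0 = x.v; simp)

theorem mul_v (x y : G) : (x * y).v = x.v + y.v + mu x.v y.v := rfl

theorem one_v : (1 : G).v = 0 := rfl

theorem pow8 (x : G) : x ^ 8 = 1 := by
  have h : ∀ (y : G) d, y.v ∈ Sup (d ≤ deg ·) → (y ^ 2).v ∈ Sup (d + d ≤ deg ·) := by
    intro y d hy
    rw [sq, mul_v, vv, zero_add]
    exact mu_deg hy hy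
  have := h _ _ (h _ _ (h x 1 (deg_one _)))
  rw [← pow_mul, ← pow_mul] at this
  exact G.ext (deg_big (deg_mono (by norm_num) this))

noncomputable instance : Group G where
  inv x := x ^ 7
  inv_mul_cancel x := by rw [← pow_succ]; exact pow8 x

instance : Finite G := Finite.of_injective G.v fun _ _ h => G.ext h

def sub (p : ℕ → Prop) (h : ∀ i < 35, ∀ j < 35, p i → p j → ∀ k ∈ tab i j, p k) :
    Subgroup G :=
  let S : Submonoid G :=
    { carrier := {g | g.v ∈ Sup p}
      one_mem' := zero_mem (Sup p)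
      mul_mem' := fun ha hb => add_mem (add_mem ha hb) (mu_mem h ha hb) }
  { S with inv_mem' := fun ha => S.pow_mem ha 7 }

def A : Subgroup G := sub _ c_A

def B : Subgroup G := sub _ c_B

theorem fact (g : G) : ∃ a ∈ A, ∃ b ∈ B, a * b = g := by
  have h : ∀ d, ∃ a ∈ A, ∃ b ∈ B, (a * b).v + g.v ∈ Sup (d + 1 ≤ deg ·) := by
    intro d
    induction d with
    | zero => exact ⟨1, one_mem _, 1, one_mem _, deg_one _⟩
    | succ d ih =>
      obtain ⟨a, ha, b, hb, h⟩ := ih
      set w := (a * b).v + g.v with hw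
      let s : V := fun k => if k.val < 16 then w k else 0
      let t : V := fun k => if k.val < 16 then 0 else w k
      have hst : s + t = w := funext fun k => by by_cases hk : k.val < 16 <;> simp [s, t, hk]
      have hs : s ∈ Sup (d + 1 ≤ deg ·) := fun k hk => by simp [s, h k hk]
      have ht : t ∈ Sup (d + 1 ≤ deg ·) := fun k hk => by simp [t, h k hk]
      refine ⟨⟨a.v + s⟩, (Sup (· < 16)).add_mem ha (fun k hk => if_neg hk),
        ⟨b.v + t⟩, (Sup (16 ≤ ·)).add_mem hb (fun k hk => if_pos (not_le.1 hk)), ?_⟩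
      have e : (⟨a.v + s⟩ * ⟨b.v + t⟩ : G).v + g.v =
          mu s (b.v + t) + mu a.v t + (w + (s + t)) := by
        rw [hw]
        simp only [mul_v, map_add, LinearMap.add_apply]
        abel
      rw [e, hst, vv, add_zero]
      exact add_mem (mu_deg hs (deg_one _))
        (deg_mono (by omega) (mu_deg (deg_one _) ht))
  obtain ⟨a, ha, b, hb, h⟩ := h 6
  exact ⟨a, ha, b, hb, G.ext (of_add (deg_big h))⟩

theorem inter {g : G} (ha : g ∈ A) (hb : g ∈ B) : g = 1 :=
  G.ext (funext fun k => if h : k.val < 16 then hb k (not_le.2 h) else ha k h)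

def gl (l : List ℕ) : G := ⟨vec l⟩

theorem gl_mul (l l' : List ℕ) : gl l * gl l' = gl (l ++ l' ++ ml l l') :=
  G.ext (by simp only [mul_v, gl, vec_append, mu_vec])

theorem gl_eq {l l' : List ℕ} (h : ev (l ++ l') = true) : gl l = gl l' := G.ext (vec_eq h)

theorem comm_eq {x y : G} (hx : x ∈ B) (hy : y ∈ B) :
    ∃ c ∈ B, c.v = mu x.v y.v + mu y.v x.v ∧ (∀ z ∈ B, z * c = c * z) ∧
      x * y * x⁻¹ * y⁻¹ = c := by
  have hc : ∀ z ∈ B, mu z.v (mu x.v y.v + mu y.v x.v) = 0 ∧
      mu (mu x.v y.v + mu y.v x.v) z.v = 0 := fun z hz => by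
    simp only [map_add, LinearMap.add_apply, ← mu_assoc, mu_BBB hz hx hy, mu_BBB hz hy hx,
      mu_BBB hx hy hz, mu_BBB hy hx hz, add_zero, and_self]
  refine ⟨⟨mu x.v y.v + mu y.v x.v⟩, add_mem (S := Submodule (ZMod 2) V) (mu_mem c_B hx hy)
    (mu_mem c_B hy hx), rfl, fun z hz => G.ext ?_, ?_⟩
  · simp only [mul_v, (hc z hz).1, (hc z hz).2]
    abel
  · rw [mul_inv_eq_iff_eq_mul, mul_inv_eq_iff_eq_mul, mul_assoc]
    apply G.ext
    rw [mul_v _ (y * x), (hc _ (mul_mem hy hx)).2, mul_v, mul_v, add_zero]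
    calc _ = x.v + y.v + mu x.v y.v + (mu y.v x.v + mu y.v x.v) := by rw [vv, add_zero]
      _ = _ := by dsimp only; abel

theorem glB {l : List ℕ} (h : ∀ k ∈ l, 16 ≤ k) : gl l ∈ B := vec_mem h

theorem glA {l : List ℕ} (h : ∀ k ∈ l, k < 16) : gl l ∈ A := vec_mem h

theorem nc : gl [22, 26] * gl [21, 23, 25] ≠ gl [21, 23, 25] * gl [22, 26] := by
  rw [gl_mul, gl_mul]
  intro h
  have := congrArg (fun g : G => g.v 34) h
  revert this
  decide +kernel

theorem result : ∃ (p : ℕ) (P : Type) (_ : Group P) (_ : Finite P) (A B : Subgroup P),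
    p.Prime ∧ IsPGroup p P ∧ (A : Set P) * (B : Set P) = Set.univ ∧ A ⊓ B = ⊥ ∧
    (∀ x ∈ A, ∀ y ∈ A, x * y = y * x) ∧ Group.nilpotencyClass B = 2 ∧
    ¬ ∃ B₀ : Subgroup P, B₀ ≤ B ∧ (∀ x ∈ B₀, ∀ y ∈ B₀, x * y = y * x) ∧
      ((A ⊔ ⁅B, B⁆ : Subgroup P) : Set P) = (A : Set P) * (B₀ : Set P) := by
  have hu : gl [22, 26] ∈ B := glB (by decide)
  have hw : gl [21, 23, 25] ∈ B := glB (by decide)
  refine ⟨2, G, inferInstance, inferInstance, A, B, Nat.prime_two, fun g => ⟨3, pow8 g⟩,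
    Set.eq_univ_of_forall fun g => Set.mem_mul.2 (fact g),
    eq_bot_iff.2 fun g hg => inter hg.1 hg.2, fun x hx y hy => G.ext ?_, ?_, ?_⟩
  · rw [mul_v, mul_v, mu_comm hx hy, add_comm x.v]
  · have h2 : upperCentralSeries B 2 = ⊤ := by
      refine eq_top_iff.2 fun x _ => mem_upperCentralSeries_succ_iff.2 fun y => ?_
      rw [upperCentralSeries_one, Subgroup.mem_center_iff]
      intro z
      obtain ⟨c, -, -, h1, h3⟩ := comm_eq x.2 y.2
      apply Subtype.ext
      simp only [commutatorElement_def, Subgroup.coe_mul, Subgroup.coe_inv, h3]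
      exact h1 z z.2
    haveI : Group.IsNilpotent B := ⟨2, h2⟩
    refine le_antisymm (upperCentralSeries_eq_top_iff_nilpotencyClass_le.1 h2) ?_
    by_contra h
    have h1 := upperCentralSeries_eq_top_iff_nilpotencyClass_le.2 (Nat.le_of_lt_succ (not_le.1 h))
    rw [upperCentralSeries_one] at h1
    have := Subgroup.mem_center_iff.1 (h1 ▸ Subgroup.mem_top (⟨_, hw⟩ : B)) ⟨_, hu⟩
    exact nc (congrArg Subtype.val this)
  · rintro ⟨B₀, hB, hc, he⟩
    have key : ∀ (y z : ℕ) (a b : List ℕ), 16 ≤ y → (∀ k ∈ a, k < 16) → (∀ k ∈ b, 16 ≤ k) →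
        ev (ml [18] [y] ++ ml [y] [18] ++ [z]) = true →
        ev (a ++ b ++ ml a b ++ ([z] ++ [0] ++ ml [z] [0])) = true → gl b ∈ B₀ := by
      intro y z a b hy ha hb h1 h2
      have hx' : gl [18] ∈ B := glB (by decide)
      have hy' : gl [y] ∈ B := glB (by simpa using hy)
      obtain ⟨c, -, h3, -, h4⟩ := comm_eq hx' hy'
      have hz : c = gl [z] := G.ext (by
        rw [h3]
        simp only [gl, mu_vec, ← vec_append]
        exact vec_eq h1)
      have hzm : gl [z] ∈ A ⊔ ⁅B, B⁆ := Subgroup.mem_sup_right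
        (by rw [← hz, ← h4]; exact Subgroup.commutator_mem_commutator hx' hy')
      have h5 : gl a * gl b = gl [z] * gl [0] := by rw [gl_mul, gl_mul]; exact gl_eq h2
      have h6 : gl b ∈ A ⊔ ⁅B, B⁆ := by
        rw [← Subgroup.mul_mem_cancel_left _ (Subgroup.mem_sup_left (glA ha)), h5]
        exact mul_mem hzm (Subgroup.mem_sup_left (glA (by decide)))
      have h7 : gl b ∈ (A : Set G) * (B₀ : Set G) := he ▸ h6
      obtain ⟨α, hα, β, hβ, e⟩ := Set.mem_mul.1 h7
      have : α = 1 := inter hα (by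
        rw [eq_mul_inv_of_mul_eq e]
        exact mul_mem (glB hb) (inv_mem (hB hβ)))
      rw [← e, this, one_mul]
      exact hβ
    exact nc (hc _ (key 17 22 [0, 9] _ (by decide) (by decide) (by decide) (by decide +kernel)
      (by decide +kernel)) _ (key 16 21 [0, 8, 11] _ (by decide) (by decide) (by decide)
      (by decide +kernel) (by decide +kernel)))

end Pool.Agent.Results.MP_c57c58_al.No
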